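import Pool.Agent.helper55.GL.Spec

/-!
# Project gl:DG2 (MP_51d945_co): in an atom with at least three vertices all degrees are at least two
-/

set_option autoImplicit false

namespace Pool.Agent.GL

open SimpleGraph

theorem DG2 : DG2_stmt := by
  classical
  intro V _ H hA h3 v
  by_contra hcon
  push Not at hcon
  have huniq : ∀ a b, H.Adj v a → H.Adj v b → a = b := by
    intro a b ha hb
    by_contra hab
    exact hcon a b hab ha hb
  have hsep : Sep H {x | x = v ∨ H.Adj v x} {x | x ≠ v} := by
    refine ⟨?_, ?_, ?_⟩
    · ext x
      simp only [Set.mem_union, Set.mem_setOf_eq, Set.mem_univ, iff_true]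
      tauto
    · intro a ha ha' b hb hb'
      have h1 : a = v := by
        by_contra h
        exact ha' h
      rw [h1]
      intro h
      exact hb' (Or.inr h)
    · rintro a ⟨ha1, ha2⟩ b ⟨hb1, hb2⟩ hab
      rcases ha1 with h | h
      · exact absurd h ha2
      · rcases hb1 with h' | h'
        · exact absurd h' hb2
        · exact absurd (huniq a b h h') hab
  rcases hA _ _ hsep with h | h
  · -- `V` has at most two elements
    have hall : ∀ x, x = v ∨ H.Adj v x := by
      intro x
      have : x ∈ (Set.univ : Set V) := Set.mem_univ x
      rw [← h] at this
      exact this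
    have hle : Fintype.card V ≤ 2 := by
      by_cases hex : ∃ a, H.Adj v a
      · obtain ⟨a, ha⟩ := hex
        have hsub : (Finset.univ : Finset V) ⊆ {v, a} := by
          intro x _
          rcases hall x with h1 | h1
          · simp [h1]
          · simp [huniq x a h1 ha]
        calc Fintype.card V = (Finset.univ : Finset V).card := rfl
          _ ≤ ({v, a} : Finset V).card := Finset.card_le_card hsub
          _ ≤ 2 := Finset.card_le_two
      · push Not at hex
        have hsub : (Finset.univ : Finset V) ⊆ {v} := by
          intro x _
          rcases hall x with h1 | h1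
          · simp [h1]
          · exact absurd h1 (hex x)
        calc Fintype.card V = (Finset.univ : Finset V).card := rfl
          _ ≤ ({v} : Finset V).card := Finset.card_le_card hsub
          _ ≤ 2 := by simp
    omega
  · have : v ∈ (Set.univ : Set V) := Set.mem_univ v
    rw [← h] at this
    exact this rfl

end Pool.Agent.GL
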